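import Pool.Agent.R340.SY.Final

set_option autoImplicit false

open Polynomial Pool.Agent.W432.WB Pool.Agent.W432.HK Pool.Agent.Y227.SO Pool.Agent.R340.SY

namespace Pool.Agent.R340.Old.RankOneSymmetry

/-- Irreducible operators of arbitrary order with any number of singular points and arbitrary
accessory parameters, compared with rank one objects.

Let `L = ∑ b k ∂ ^ k` be an operator of order `n ≥ 2` with integral polynomial coefficients,
Fuchsian, with finite singular points among the distinct algebraic numbers `α j`, `j = 1, …, m`,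
with the rational exponents `e x l`, `l < n` (`expo lam phi x l`), at the `m + 1` points `x` (the
finite points `some j` and infinity, `none`), and irreducible over the algebraic numbers. Let `ε x`
be rational numbers with an integral sum (the exponents of an operator of order one), and let `q` be
a positive integer such that the numbers `D x l = q (e x l - ε x)` are integers. Let `M` be the
number of the pairs `(x, l)` for which `e x l - ε x` is not an integer. Then (1) or (2) holds.

(1) For every `u` prime to `q` the sum of the fractional parts of all the `u (e x l - ε x)` is at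
least `n` and at most `M - n` (in particular `M ≥ 2 n`); and if `M ≤ 2 n` and `q` is a prime number
or all prime factors of `q` are greater than `4 n + 1`, then the family of all the differences
`e x l - ε x` is symmetric modulo `ℤ`: for every integer `r` as many of them are congruent to
`r / q` modulo `ℤ` as are congruent to `-r / q`.

(2) For every common denominator `N` of the exponents there is an `a` prime to `N` such that for all
large primes `p` with `a p = -1` modulo `N` the reduction of `L` modulo `p` does not have a full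
basis of rational solutions. In particular the open implication of the conjecture holds for `L`. -/
theorem result {m n : ℕ} (hm : 1 ≤ m) (hn : 2 ≤ n) (b : Fin (n + 1) → ℤ[X])
    (α : Fin m → AlgebraicClosure ℚ) (lam : Fin m → Fin n → ℚ) (phi : Fin n → ℚ)
    (hF : FuchsianWith b α lam phi) (hirr : ¬ Reducible b) (ε : Option (Fin m) → ℚ) (s : ℤ)
    (hε : ∑ x, ε x = s) (q : ℕ) (hq : 0 < q) (D : Option (Fin m) → Fin n → ℤ)
    (hD : ∀ x l, (q : ℚ) * (expo lam phi x l - ε x) = D x l) (M : ℕ)
    (hM : M = (Finset.univ.filter fun t : Option (Fin m) × Fin n => ¬ (q : ℤ) ∣ D t.1 t.2).card) :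
    ((∀ u : ℤ, IsCoprime u (q : ℤ) →
        (n : ℚ) ≤ ∑ x, ∑ l, Int.fract ((u : ℚ) * (expo lam phi x l - ε x)) ∧
        ∑ x, ∑ l, Int.fract ((u : ℚ) * (expo lam phi x l - ε x)) ≤ M - n) ∧
      (M ≤ 2 * n → (q.Prime ∨ ∀ p : ℕ, p.Prime → p ∣ q → 4 * n + 1 < p) → ∀ r : ℤ,
        (Finset.univ.filter fun t : Option (Fin m) × Fin n => (q : ℤ) ∣ D t.1 t.2 - r).card =
          (Finset.univ.filter fun t : Option (Fin m) × Fin n => (q : ℤ) ∣ D t.1 t.2 + r).card)) ∨
    ((∀ N, CommonDen lam phi N → BadClass b N) ∧ (Cond b → FullAlg b)) := by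
  by_cases h : ∀ N, CommonDen lam phi N → BadClass b N
  · refine Or.inr ⟨h, fun hc => ?_⟩
    obtain ⟨N, hN⟩ := exists_commonDen lam phi
    obtain ⟨a, ha, P₀, hP₀⟩ := h N hN
    obtain ⟨p, hp1, hp2, hp3, hp4⟩ := cond_infinite hc hN.1 ha P₀
    exact absurd hp4 (hP₀ p hp1 hp2 hp3)
  · left
    push Not at h
    obtain ⟨N, hN, hbad⟩ := h
    obtain ⟨F, hFu⟩ := fuchs_int hm hn hF
    have hq' : (0 : ℚ) < q := by exact_mod_cast hq
    have hres : ∀ u : ℤ, IsCoprime u (q : ℤ) → (n : ℤ) * q ≤ ∑ x, ∑ l, (u * D x l) % q :=
      fun u hu => residues_ge hm hn hF hirr hN hbad hε hq hD hFu u hu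
    refine ⟨fun u hu => ?_, fun hM2 hqq r => symmetric_of_residues hq D hres (hM ▸ hM2) hqq r⟩
    have h2 : ∀ x l, Int.fract ((u : ℚ) * (expo lam phi x l - ε x)) =
        (((u * D x l) % q : ℤ) : ℚ) / q := by
      intro x l
      exact fract_eq hq (z := u * D x l) (by
        rw [← mul_assoc, mul_comm (q : ℚ), mul_assoc, hD]; push_cast; rfl)
    have h1 := hres u hu
    have h3 := hres (-u) hu.neg_left
    have h4 := residues_add hq D u hu
    rw [← hM] at h4
    simp only [h2, ← Finset.sum_div]
    rw [le_div_iff₀ hq', div_le_iff₀ hq']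
    constructor
    · exact_mod_cast h1
    · have h5 : ∑ x, ∑ l, (u * D x l) % (q : ℤ) ≤ (M - n) * q := by linarith
      exact_mod_cast h5

end Pool.Agent.R340.Old.RankOneSymmetry
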