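import Pool.Agent.R340.P3.Final

set_option autoImplicit false

open Polynomial Pool.Agent.W432.WB Pool.Agent.W432.HK Pool.Agent.Y227.SO Pool.Agent.R340.P3

namespace Pool.Agent.R340.Old.ThirdOrderResonant

/-- Irreducible operators of order three with prime denominators of the exponents and at most three
points with non-integral exponents, with resonance allowed.

Let `L = ∑ b k ∂ ^ k` be an operator of order three with integral polynomial coefficients, Fuchsian,
with finite singular points among the distinct algebraic numbers `α j`, `j = 1, …, m`, with the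
rational exponents `E (some j) l / N` at `α j` and the exponents `E none l / N` at infinity (so
that the degrees of the solutions at infinity are `-E none l / N`), where `N` is a prime number, and
irreducible over the algebraic numbers. Assume that the exponents are integers at all the points
outside of three of them, `P 0`, `P 1`, `P 2` (one of them may be infinity). The further singular
points, their number and the accessory parameters are arbitrary. Then one of the following holds.

(1) At each of the three points the three exponents are distinct modulo `ℤ`, the three sets of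
exponents modulo `ℤ` are translates of one and the same set, and there are three exponents, one at
each of the three points, whose sum is an integer.

(2) There is an `a` prime to `N` such that for all large primes `p` with `a p = -1` modulo `N` the
reduction of `L` modulo `p` does not have a full basis of rational solutions. In particular the open
implication of the conjecture holds for `L`. -/
theorem result {m : ℕ} (b : Fin 4 → ℤ[X]) (α : Fin m → AlgebraicClosure ℚ)
    (lam : Fin m → Fin 3 → ℚ) (phi : Fin 3 → ℚ) (hF : FuchsianWith b α lam phi)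
    (hirr : ¬ Reducible b) (N : ℕ) (hN : N.Prime) (E : Option (Fin m) → Fin 3 → ℤ)
    (hlam : ∀ j l, lam j l = (E (some j) l : ℚ) / N) (hphi : ∀ l, phi l = -(E none l : ℚ) / N)
    (P : Fin 3 → Option (Fin m)) (hP : Function.Injective P)
    (hint : ∀ x, x ∉ Set.range P → ∀ l, (N : ℤ) ∣ E x l) :
    ((∃ T : Fin 3 → ℤ, (∀ l l', l ≠ l' → ¬ (N : ℤ) ∣ T l - T l') ∧
        ∀ i, ∃ σ : Equiv.Perm (Fin 3), ∃ t : ℤ, ∀ l, (N : ℤ) ∣ E (P i) (σ l) - T l - t) ∧
      ∃ κ : Fin 3 → Fin 3, (N : ℤ) ∣ ∑ i, E (P i) (κ i)) ∨
    (BadClass b N ∧ (Cond b → FullAlg b)) := by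
  have hm : 0 < m := by
    rcases Nat.eq_zero_or_pos m with h | h
    · subst h
      have h3 := Fintype.card_le_of_injective P hP
      simp at h3
    · exact h
  have hpr := Nat.prime_iff_prime_int.1 hN
  have hcop : ∀ {z : ℤ}, ¬ (N : ℤ) ∣ z → IsCoprime z (N : ℤ) := fun {z} hz =>
    (hpr.coprime_iff_not_dvd.2 hz).symm
  have hNq : (N : ℚ) ≠ 0 := by exact_mod_cast hN.ne_zero
  by_cases h : BadClass b N
  · refine Or.inr ⟨h, fun hc => ?_⟩
    obtain ⟨a, ha, P₀, hP₀⟩ := h
    obtain ⟨p, hp1, hp2, hp3, hp4⟩ := cond_infinite hc hN.pos ha P₀
    exact absurd hp4 (hP₀ p hp1 hp2 hp3)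
  · left
    have hCD : CommonDen lam phi N := by
      refine ⟨hN.pos, fun j l => ⟨E (some j) l, ?_⟩, fun l => ⟨-E none l, ?_⟩⟩
      · rw [hlam]
        field_simp
      · rw [hphi]
        push_cast
        field_simp
    have hres : ∃ κ : Fin 3 → Fin 3, (N : ℤ) ∣ ∑ i, E (P i) (κ i) := by
      by_contra hcon
      push Not at hcon
      obtain ⟨hb, Q, hFu, hE⟩ := hF
      apply h
      refine Pool.Agent.TH829.PC.third hm b hb α Q hFu N hN.one_lt E ?_ ⟨P, hP⟩ hint ?_ ?_
      · have e1 : lam = fun j l => (E (some j) l : ℚ) / N := by
          funext j l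
          exact hlam j l
        have e2 : phi = fun l => -(E none l : ℚ) / N := by
          funext l
          exact hphi l
        rw [← e1, ← e2]
        exact hE
      · intro i l l'
        by_cases hd : (N : ℤ) ∣ E (P i) l - E (P i) l'
        · exact Or.inr hd
        · exact Or.inl (hcop hd)
      · intro κ
        exact hcop (hcon κ)
    obtain ⟨κ, hκ⟩ := hres
    refine ⟨third_main hF hN hlam hphi ⟨P, hP⟩ hint κ hκ fun u hu => ?_, κ, hκ⟩
    by_contra hst
    exact h ⟨u, hu, bad_class hm (by norm_num) hF hCD u (Or.inr ⟨hirr, hst⟩)⟩

end Pool.Agent.R340.Old.ThirdOrderResonant
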