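import Pool.Agent.R340.HK.Wrap

set_option autoImplicit false

open Polynomial Pool.Agent.W432.WB Pool.Agent.W432.HK Pool.Agent.Y227.SO Pool.Agent.R340.HK

namespace Pool.Agent.R340.Old.ThreePointsIndexZero

/-- Irreducible operators of arbitrary order `n ≥ 2` with three points with non-integral exponents
and index of rigidity at least zero.

Let `L = ∑ b k ∂ ^ k` be an operator of order `n` with integral polynomial coefficients, Fuchsian,
with finite singular points among the distinct algebraic numbers `α j`, `j = 1, …, m`, with the
rational exponents `E (some j) l / N` at `α j` and `E none l / N` at infinity (so that the degrees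
of the solutions at infinity are `-E none l / N`), and irreducible over the algebraic numbers.
Assume that the exponents are integers at all the points outside of three of them, `P 0`, `P 1`,
`P 2`, one of which is infinity. The number of the further singular points and the accessory
parameters are arbitrary.

(1) Assume that the differences of exponents at the same point `P i` are prime to `N` or divisible
by `N` (as numerators over `N`), that all sums of three exponents, one at each `P i`, are prime to
`N` (for prime `N` this says that no such sum is an integer: there is no resonance), and that the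
number of ordered pairs of exponents at the same point `P i` which are congruent modulo `ℤ`, added
over the three points, is at least `n ^ 2` (so the index of rigidity computed from the
multiplicities of the exponents modulo `ℤ` is at least zero). Then there is an `a` prime to `N` such
that for all large primes `p` with `a p = -1` modulo `N` the reduction of `L` modulo `p` does not
have a full basis of rational solutions. In particular the open implication of the conjecture holds
for `L`.

(2) Assume that `N` is a prime number, that at the point `P i` every exponent is congruent modulo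
`ℤ` to exactly `c i` of the exponents, that `c 0 + c 1 + c 2 = n` and that `2 c i = n` for one `i`
(for `n = 4` and `n = 6` these are the types `(22, 1111, 1111)` and `(33, 222, 111111)`, with two
accessory parameters). Then, whether or not there are resonances, the conclusion of (1) holds. -/
theorem result {m n : ℕ} (hn : 2 ≤ n) (b : Fin (n + 1) → ℤ[X]) (α : Fin m → AlgebraicClosure ℚ)
    (lam : Fin m → Fin n → ℚ) (phi : Fin n → ℚ) (hF : FuchsianWith b α lam phi)
    (hirr : ¬ Reducible b) (N : ℕ) (hN : 1 < N) (E : Option (Fin m) → Fin n → ℤ)
    (hlam : ∀ j l, lam j l = (E (some j) l : ℚ) / N) (hphi : ∀ l, phi l = -(E none l : ℚ) / N)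
    (P : Fin 3 → Option (Fin m)) (hP : Function.Injective P) (hinf : ∃ i, P i = none)
    (hint : ∀ x, x ∉ Set.range P → ∀ l, (N : ℤ) ∣ E x l) :
    ((∀ i l l', IsCoprime (E (P i) l - E (P i) l') (N : ℤ) ∨ (N : ℤ) ∣ E (P i) l - E (P i) l') →
      (∀ κ : Fin 3 → Fin n, IsCoprime (∑ i, E (P i) (κ i)) (N : ℤ)) →
      n ^ 2 ≤ ∑ i, (Finset.univ.filter fun t : Fin n × Fin n =>
        (N : ℤ) ∣ E (P i) t.1 - E (P i) t.2).card →
      BadClass b N ∧ (Cond b → FullAlg b)) ∧
    (N.Prime → ∀ c : Fin 3 → ℕ,
      (∀ i l, (Finset.univ.filter fun l' => (N : ℤ) ∣ E (P i) l' - E (P i) l).card = c i) →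
      ∑ i, c i = n → (∃ i, 2 * c i = n) → BadClass b N ∧ (Cond b → FullAlg b)) := by
  refine ⟨fun h1 h2 h3 => ?_, fun hp c hc hsum h2 => ?_⟩
  · exact concl_of_bad (by omega) (part_one hn hF hirr hN hlam hphi P hP hinf hint h1 h2 h3)
  · exact concl_of_bad (by omega) (part_two (by omega) hF hirr hp hlam hphi P hP hinf hint c hc hsum h2)

end Pool.Agent.R340.Old.ThreePointsIndexZero
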