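import Pool.Agent.R340.MI.SysTwist

set_option autoImplicit false

open Finset Pool.Agent.W432.PC Pool.Agent.Y227.SS Pool.Agent.R340.MI

/-!
# Irreducible systems of any rank on the thrice punctured line, with resonances

Let `∇ = d/dt - (b / t + c / (t - 1))` be an irreducible system of rank `r ≥ 2` whose exponents have, up
to a twist by a system of rank one, a prime denominator. Assume that every choice of one exponent for
each of the points `0, 1, ∞` has total multiplicity at least `r`. Among these systems are the ones of the
types `(ccc, ccc, ccc)`, `(2c 2c, cccc, cccc)` and `(3c 3c, 2c 2c 2c, cccccc)` of index of rigidity zero and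
some rigid ones. Nothing is assumed on resonances, i.e. integral sums of exponents, one for each point,
which were excluded in the earlier results on systems of index zero. It is shown that `∇` satisfies the
conjecture, its `p`-curvatures being nonzero for all large primes in some residue class, unless it is of
the type `(ccc, ccc, ccc)`, the three sets of classes of exponents are translates of one another and there
is a resonance.

Proof. If the `p`-curvatures vanish for a dense set of closed points with `a p = -1` modulo `N`, the
conjugate exponents `a λ` are the weights of a stable parabolic bundle of parabolic degree zero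
(`Pool.Agent.Y227.SS`).
* Sections of twists of the bundle show that resonant exponents have total multiplicity at most `r`, and
in the case of equality the family of the differences with the other exponents is symmetric: its sawtooth
sums vanish for all conjugates (`Sym`).
* The averaged quadratic inequality for one exponent (`Single`), which holds at all the three points since
infinity can be exchanged with a finite point (`Swap`), excludes nonresonant exponents of maximal
multiplicity. So all the multiplicities at one point are equal (`Uniform`).
* If there are two classes at some point, the symmetry at all resonances gives a contradiction. Otherwise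
there are three classes at each point and the inequalities for line subbundles are, divided by `r / 3`, the
inequalities in rank three, where the argument of `Pool.Agent.R340.P3` applies.
-/

namespace Pool.Agent.R340.Old.TotalMultiplicity

universe u

/-- Let `∇ = d/dt - (b / t + c / (t - 1))` be a system of rank `r ≥ 2` over a domain `R` of
characteristic zero, of finite type over `ℤ`, irreducible over every field which contains `R`, with
rational exponents `lam 0 l` at `0` (eigenvalues of `b`), `lam 1 l` at `1` (eigenvalues of `c`) and
`lam 2 l` at infinity (eigenvalues of `-(b + c)`). Let `N` be a prime number such that the differences of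
exponents at the same point and the sums of exponents, one for each point, are in `(1 / N) ℤ`. Assume
that every choice `κ` of one exponent for each point has total multiplicity at least `r`, where the
multiplicity `mult lam i l` of the exponent `lam i l` is the number of the exponents at the same point
which are congruent to it modulo `ℤ`.

Then one of the following holds.

* `Exceptional lam`: the exponents at each of the three points are in three classes modulo `ℤ` with
`r / 3` elements, there is a resonance (a sum of exponents, one for each point, which is an integer), and
the three sets of classes are translates of one another (by `t 0`, `t 1`, `t 2`).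

* For every common denominator `B` of the exponents there are a residue class modulo `B`, prime to
`B`, and a nonzero `g` in `R` such that the `p`-curvature of `∇` is nonzero at every closed point of
`Spec R[1/g]` whose residue characteristic is a large prime in that class; in particular the
`p`-curvatures do not vanish on a dense open subset of `Spec R`. -/
theorem result {R : Type u} [CommRing R] [IsDomain R] [CharZero R] [Algebra.FiniteType ℤ R] {r : ℕ}
    (hr : 2 ≤ r) (b c : Matrix (Fin r) (Fin r) R)
    (hirr : AbsIrreducible (![0, 1] : Fin 2 → R) ![b, c])
    (lam : Fin 3 → Fin r → ℚ) (h0 : HasExponents b (lam 0)) (h1 : HasExponents c (lam 1))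
    (h2 : HasExponents (b + c) (fun l => -lam 2 l)) {N : ℕ} (hN : N.Prime)
    (hd : ∀ i l l', ∃ m : ℤ, (N : ℚ) * (lam i l - lam i l') = m)
    (hs : ∀ κ : Fin 3 → Fin r, ∃ m : ℤ, (N : ℚ) * ∑ i, lam i (κ i) = m)
    (hmult : ∀ κ : Fin 3 → Fin r, r ≤ ∑ i, mult lam i (κ i)) :
    Exceptional lam ∨
    ((∀ B : ℕ, 0 < B → (∀ i l, ∃ m : ℤ, (B : ℚ) * lam i l = m) →
      ∃ a : ℤ, IsCoprime a (B : ℤ) ∧ ∃ g : R, g ≠ 0 ∧ ∃ P₀ : ℕ,
        ∀ p : ℕ, p.Prime → P₀ < p → (B : ℤ) ∣ a * p + 1 →
          ∀ (𝔪 : Ideal R) [𝔪.IsMaximal], (p : R) ∈ 𝔪 → g ∉ 𝔪 →
            ¬ PCurvZeroAt ![0, 1] ![b, c] 𝔪) ∧
    ¬ CondII (![0, 1] : Fin 2 → R) ![b, c]) := by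
  have hα : ∀ i j : Fin 2, i ≠ j → IsUnit ((![0, 1] : Fin 2 → R) i - ![0, 1] j) := by
    intro i j hij
    fin_cases i <;> fin_cases j
    · exact absurd rfl hij
    · simp
    · simp
    · exact absurd rfl hij
  have hlam : ∀ j : Fin 2, HasExponents ((![b, c] : Fin 2 → Matrix (Fin r) (Fin r) R) j)
      (lam j.castSucc) := by
    intro j
    fin_cases j
    · exact h0
    · exact h1
  have hphi : HasExponents (∑ j, (![b, c] : Fin 2 → Matrix (Fin r) (Fin r) R) j)
      (fun l => -lam 2 l) := by
    rw [Fin.sum_univ_two]
    exact h2
  by_cases hex : Exceptional lam
  · exact Or.inl hex
  · right
    have key : ∀ B : ℕ, 0 < B → (∀ i l, ∃ m : ℤ, (B : ℚ) * lam i l = m) →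
        BadSys (![0, 1] : Fin 2 → R) ![b, c] B := fun B hB hBlam =>
      sys_three _ hα _ hirr lam hlam hphi hr hN hd hs hmult hex hB hBlam
    obtain ⟨B, hB, hBlam⟩ := exists_den lam
    exact ⟨key, (key B hB hBlam).not_condII hB⟩

end Pool.Agent.R340.Old.TotalMultiplicity
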